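import Pool.Agent.Lib.H31Q.Nuc

/-!
# H31Q: bounded components and thin covers
-/

set_option autoImplicit false

namespace Pool.Agent.Lib.H31Q

open Set Filter Topology Relation

variable {X : Type}

/-- The subgroup `H ⊆ P` contains the sections at `u` of the triple products which fix `u`. -/
def Good (P : Set (Equiv.Perm (List X))) (u : List X) : Prop :=
  ∃ H : Subgroup (Equiv.Perm (List X)), (H : Set (Equiv.Perm (List X))) ⊆ P ∧
    ∀ p ∈ P, ∀ q ∈ P, ∀ r ∈ P, (p * (q * r)) u = u → ∃ h ∈ H, sectionAt (p * (q * r)) u = h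

theorem exists_good [Finite X] [Nonempty X] {P : Set (Equiv.Perm (List X))} (hP : Nuc P) :
    ∃ m : ℕ, ∀ u : List X, m ≤ u.length → Good P u := by
  obtain ⟨m, hm⟩ := exists_level_group hP
  obtain ⟨K, hK⟩ := exists_uniform3 hP
  refine ⟨K + m, fun u hu => ?_⟩
  have h1 : u = u.take K ++ u.drop K := (List.take_append_drop K u).symm
  have h2 : (u.take K).length = K := by rw [List.length_take]; omega
  have h3 : m ≤ (u.drop K).length := by rw [List.length_drop]; omega
  obtain ⟨H, hH1, hH2⟩ := hm _ h3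
  refine ⟨H, hH2, fun p hp q hq r hr hfix => ?_⟩
  obtain ⟨s, hs, h4⟩ := hK p hp q hq r hr (u.take K) h2.ge
  have hpqr := tree_mul (hP.tree p hp) (tree_mul (hP.tree q hq) (hP.tree r hr))
  have h5 : (p * (q * r)) (u.take K ++ u.drop K) = u.take K ++ u.drop K := by rw [← h1, hfix]
  rw [append_eq hpqr] at h5
  have h6 : s (u.drop K) = u.drop K := by
    rw [← h4]
    exact List.append_inj_right h5 (by rw [hpqr.1])
  obtain ⟨t, ht, h7⟩ := hP.sec s hs (u.drop K)
  refine ⟨t, hH1 ⟨s, hs, h6, h7⟩, ?_⟩
  funext w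
  rw [h1, section_append hpqr, h4, ← h7]
  rfl

/-- `z` begins with a word `c u`, `c ∈ P`. -/
def Star (P : Set (Equiv.Perm (List X))) (u : List X) : Set (List X) :=
  {z | ∃ c ∈ P, ∃ x : List X, z = c u ++ x}

/-- Moves by elements of `P` inside `R`. -/
def Move (P : Set (Equiv.Perm (List X))) (R : Set (List X)) (a b : List X) : Prop :=
  a ∈ R ∧ b ∈ R ∧ ∃ p ∈ P, b = p a

theorem Move.symm {P : Set (Equiv.Perm (List X))} (hP : Nuc P) {R : Set (List X)} {a b : List X}
    (h : Move P R a b) : Move P R b a := by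
  obtain ⟨h1, h2, p, hp, rfl⟩ := h
  exact ⟨h2, h1, p⁻¹, hP.inv p hp, (Equiv.symm_apply_apply p a).symm⟩

/-- The component of `y`. -/
def comp (P : Set (Equiv.Perm (List X))) (R : Set (List X)) (y : List X) : Set (List X) :=
  {z | ReflTransGen (Move P R) y z}

theorem comp_symm {P : Set (Equiv.Perm (List X))} (hP : Nuc P) {R : Set (List X)} {y z : List X}
    (h : z ∈ comp P R y) : y ∈ comp P R z := by
  have h' : ReflTransGen (Move P R) y z := h
  show ReflTransGen (Move P R) z y
  clear h
  induction h' with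
  | refl => exact ReflTransGen.refl
  | tail h1 h2 ih => exact ReflTransGen.head (h2.symm hP) ih

theorem comp_eq {P : Set (Equiv.Perm (List X))} (hP : Nuc P) {R : Set (List X)} {y z : List X}
    (h : z ∈ comp P R y) : comp P R y = comp P R z := by
  ext w
  exact ⟨fun h1 => (comp_symm hP h).trans h1, fun h1 => ReflTransGen.trans h h1⟩

theorem comp_sub {P : Set (Equiv.Perm (List X))} {R : Set (List X)} {y : List X}
    (hy : y ∈ R) : comp P R y ⊆ R := by
  intro z hz
  have hz' : ReflTransGen (Move P R) y z := hz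
  rcases ReflTransGen.cases_tail hz' with h | ⟨c, -, h⟩
  · rw [h]; exact hy
  · exact h.2.1

theorem comp_length {P : Set (Equiv.Perm (List X))} (hP : Nuc P) {R : Set (List X)}
    {y z : List X} (h : z ∈ comp P R y) : z.length = y.length := by
  have hz' : ReflTransGen (Move P R) y z := h
  induction hz' with
  | refl => rfl
  | tail h1 h2 ih =>
    obtain ⟨-, -, p, hp, rfl⟩ := h2
    rw [(hP.tree p hp).1, ih h1]

theorem comp_star {P : Set (Equiv.Perm (List X))} (hP : Nuc P) {u : List X} (hu : Good P u)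
    {y : List X} (hy : y ∈ Star P u) :
    (comp P (Star P u) y).Finite ∧ (comp P (Star P u) y).ncard ≤ P.ncard * P.ncard := by
  obtain ⟨H, hHP, hH⟩ := hu
  have hback : ∀ c ∈ P, ∀ x : List X, c (u ++ sectionAt c⁻¹ (c u) x) = c u ++ x := by
    intro c hc x
    have h1 := append_eq (hP.tree _ (hP.inv c hc)) (c u) x
    have h2 : c⁻¹ (c u) = u := Equiv.symm_apply_apply c u
    rw [h2] at h1
    rw [← h1]
    exact Equiv.apply_symm_apply c _
  obtain ⟨c₀, hc₀, x, rfl⟩ := hy
  set x₀ := sectionAt c₀⁻¹ (c₀ u) x with hx₀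
  have key : ∀ z ∈ comp P (Star P u) (c₀ u ++ x), ∃ c ∈ P, ∃ h ∈ H, z = c (u ++ h x₀) := by
    intro z hz
    have hz' : ReflTransGen (Move P (Star P u)) (c₀ u ++ x) z := hz
    induction hz' with
    | refl => exact ⟨c₀, hc₀, 1, H.one_mem, (hback c₀ hc₀ x).symm⟩
    | tail h1 h2 ih =>
      obtain ⟨c, hc, h, hh, rfl⟩ := ih h1
      obtain ⟨-, ⟨c', hc', x', h3⟩, p, hp, rfl⟩ := h2
      have h4 := hback c' hc' x'
      set x'' := sectionAt c'⁻¹ (c' u) x' with hx''
      have ht := tree_mul (hP.tree _ (hP.inv c' hc')) (tree_mul (hP.tree p hp) (hP.tree c hc))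
      have h5 : (c'⁻¹ * (p * c)) (u ++ h x₀) = u ++ x'' := by
        rw [Equiv.Perm.mul_apply, Equiv.Perm.mul_apply, h3, ← h4]
        exact Equiv.symm_apply_apply c' _
      have h5' := h5
      rw [append_eq ht] at h5'
      have h6 : (c'⁻¹ * (p * c)) u = u := List.append_inj_left h5' (by rw [ht.1])
      have h7 : sectionAt (c'⁻¹ * (p * c)) u (h x₀) = x'' :=
        List.append_inj_right h5' (by rw [ht.1])
      obtain ⟨h', hh', h8⟩ := hH _ (hP.inv c' hc') p hp c hc h6
      refine ⟨c', hc', h' * h, H.mul_mem hh' hh, ?_⟩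
      rw [h3, ← h4, ← h7, h8]
      rfl
  have h1 : comp P (Star P u) (c₀ u ++ x) ⊆
      (fun q : Equiv.Perm (List X) × Equiv.Perm (List X) => q.1 (u ++ q.2 x₀)) '' (P ×ˢ P) := by
    intro z hz
    obtain ⟨c, hc, h, hh, rfl⟩ := key z hz
    exact ⟨(c, h), ⟨hc, hHP hh⟩, rfl⟩
  have hf := (hP.fin.prod hP.fin).image
    (fun q : Equiv.Perm (List X) × Equiv.Perm (List X) => q.1 (u ++ q.2 x₀))
  refine ⟨hf.subset h1, (Set.ncard_le_ncard h1 hf).trans ?_⟩
  refine (Set.ncard_image_le (hP.fin.prod hP.fin)).trans (le_of_eq ?_)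
  exact Set.ncard_prod

/-- The combinatorial content of the condition on the dimension. -/
structure Cov (P : Set (Equiv.Perm (List X))) {ι : Type} (A : ι → Set (List X)) (n m : ℕ) :
    Prop where
  le : m ≤ n
  leb : ∀ v : List X, v.length = n → ∃ i, ∀ p ∈ P, p v ∈ A i
  mult : ∀ v : List X, v.length = n → {i | v ∈ A i}.encard ≤ 2
  star : ∀ i, ∃ u : List X, u.length = m ∧ Good P u ∧
    ∀ v ∈ A i, v.length = n ∧ v.drop (n - m) ∈ Star P u

/-- The long words beginning in `A i`. -/
def Q {ι : Type} (A : ι → Set (List X)) (n : ℕ) (i : ι) : Set (List X) :=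
  {y | n ≤ y.length ∧ y.take n ∈ A i}

theorem Cov.size [Finite X] {P : Set (Equiv.Perm (List X))} (hP : Nuc P) {ι : Type}
    {A : ι → Set (List X)} {n m : ℕ} (h : Cov P A n m) {i : ι} {y : List X} (hy : y ∈ Q A n i) :
    (comp P (Q A n i) y).Finite ∧
      (comp P (Q A n i) y).ncard ≤ Nat.card X ^ (n - m) * (P.ncard * P.ncard) := by
  obtain ⟨u, hu, hgood, hst⟩ := h.star i
  have hQ : ∀ z ∈ Q A n i, z.drop (n - m) ∈ Star P u := by
    rintro z ⟨h1, h2⟩
    obtain ⟨c, hc, x, hx⟩ := (hst _ h2).2
    refine ⟨c, hc, x ++ z.drop n, ?_⟩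
    rw [← List.append_assoc, ← hx]
    have h3 : z = z.take n ++ z.drop n := (List.take_append_drop n z).symm
    conv_lhs => rw [h3]
    rw [List.drop_append_of_le_length]
    rw [List.length_take]
    omega
  obtain ⟨hf, hc⟩ := comp_star hP hgood (hQ y hy)
  have key : ∀ z ∈ comp P (Q A n i) y,
      z.drop (n - m) ∈ comp P (Star P u) (y.drop (n - m)) := by
    intro z hz
    have hz' : ReflTransGen (Move P (Q A n i)) y z := hz
    induction hz' with
    | refl => exact ReflTransGen.refl
    | @tail b c h1 h2 ih =>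
      refine ReflTransGen.tail (ih h1) ?_
      obtain ⟨hb, hc', p, hp, rfl⟩ := h2
      refine ⟨hQ _ hb, hQ _ hc', ?_⟩
      obtain ⟨q, hq, h3⟩ := hP.sec p hp (b.take (n - m))
      refine ⟨q, hq, ?_⟩
      have h4 : b = b.take (n - m) ++ b.drop (n - m) := (List.take_append_drop _ b).symm
      have h5 : (b.take (n - m)).length = n - m := by
        rw [List.length_take]
        have := hb.1
        omega
      have h6 : (p (b.take (n - m))).length = n - m := by rw [(hP.tree p hp).1, h5]
      have h8 : p b = p (b.take (n - m)) ++ q (b.drop (n - m)) := by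
        conv_lhs => rw [h4]
        rw [append_eq (hP.tree p hp), h3]
      rw [h8]
      exact List.drop_left' h6
  have h1 : comp P (Q A n i) y ⊆ (fun q : List X × List X => q.1 ++ q.2) ''
      ({v : List X | v.length = n - m} ×ˢ comp P (Star P u) (y.drop (n - m))) := by
    intro z hz
    refine ⟨(z.take (n - m), z.drop (n - m)), ⟨?_, key z hz⟩, List.take_append_drop _ z⟩
    show (z.take (n - m)).length = n - m
    rw [List.length_take, comp_length hP hz]
    have := hy.1
    omega
  have hfin := ((words_finite (X := X) (n - m)).prod hf).image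
    (fun q : List X × List X => q.1 ++ q.2)
  refine ⟨hfin.subset h1, (Set.ncard_le_ncard h1 hfin).trans ?_⟩
  refine (Set.ncard_image_le ((words_finite (X := X) (n - m)).prod hf)).trans ?_
  rw [Set.ncard_prod, words_ncard]
  exact Nat.mul_le_mul_left _ hc

theorem encard_image_le_two {α β : Type} (f : α → β) {s : Set α} (h : s.encard ≤ 2) :
    (f '' s).encard ≤ 2 := (Set.encard_image_le f s).trans h

open Pool.Agent.Lib.Helper67.BN (ball orbitBall) in
/-- Thin covers at all scales. -/
theorem Cov.thinCover [Finite X] {P : Set (Equiv.Perm (List X))} (hP : Nuc P) {ι : Type}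
    {A : ι → Set (List X)} {n m : ℕ} (h : Cov P A n m) {E : Type*} [Group E]
    {π : E →* Equiv.Perm (List X)} (hπ : ∀ e, IsTreeAutomorphism (π e)) {S : Set E} {r k : ℕ}
    (hk : ∀ g ∈ ball S r, ∀ v : List X, v.length = k → ∃ p ∈ P, sectionAt (π g) v = p) :
    ∃ b, Pool.Agent.Lib.H65D.ThinCover π S r b := by
  let W : ι → List X → Set (List X) := fun i y =>
    (fun q : List X × List X => q.1 ++ q.2) '' ({v : List X | v.length = k} ×ˢ comp P (Q A n i) y)
  let 𝒲 : Set (Set (List X)) :=
    {U | (∃ i, ∃ y ∈ Q A n i, U = W i y) ∨ ∃ j < k + n, U = {z : List X | z.length = j}}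
  let b₁ := Nat.card X ^ k * (Nat.card X ^ (n - m) * (P.ncard * P.ncard))
  let b₂ := (Nat.card X + 1) ^ (k + n)
  have hWmem : ∀ i y z, y ∈ Q A n i → z ∈ W i y → k + n ≤ z.length ∧
      z.drop k ∈ comp P (Q A n i) y := by
    rintro i y z hy ⟨⟨a, c⟩, ⟨h1, h2⟩, rfl⟩
    have h1' : a.length = k := h1
    have h3 := (comp_sub hy h2).1
    refine ⟨?_, ?_⟩
    · show k + n ≤ (a ++ c).length
      rw [List.length_append, h1']
      exact Nat.add_le_add_left h3 k
    · show (a ++ c).drop k ∈ _
      rw [List.drop_left' h1']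
      exact h2
  refine ⟨max b₁ b₂, 𝒲, ?_, ?_, ?_⟩
  · rintro U (⟨i, y, hy, rfl⟩ | ⟨j, hj, rfl⟩)
    · obtain ⟨hf, hc⟩ := h.size hP hy
      have h1 := (words_finite (X := X) k).prod hf
      refine ⟨h1.image _, le_trans ?_ (le_max_left _ _)⟩
      refine (Set.ncard_image_le h1).trans ?_
      rw [Set.ncard_prod, words_ncard]
      exact Nat.mul_le_mul_left _ hc
    · refine ⟨words_finite j, le_trans ?_ (le_max_right _ _)⟩
      rw [words_ncard]
      exact (Nat.pow_le_pow_left (Nat.le_succ _) j).trans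
        (Nat.pow_le_pow_right (Nat.succ_pos _) hj.le)
  · intro z
    rcases Nat.lt_or_ge z.length (k + n) with hz | hz
    · have h1 : {U | U ∈ 𝒲 ∧ z ∈ U} ⊆ {{y : List X | y.length = z.length}} := by
        rintro U ⟨⟨i, y, hy, rfl⟩ | ⟨j, hj, rfl⟩, hU⟩
        · have := (hWmem i y z hy hU).1
          omega
        · have h2 : z.length = j := hU
          rw [Set.mem_singleton_iff, h2]
      refine (Set.encard_le_encard h1).trans ?_
      rw [Set.encard_singleton]
      norm_num
    · have h2 : ((z.drop k).take n).length = n := by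
        rw [List.length_take, List.length_drop]
        omega
      have h1 : {U | U ∈ 𝒲 ∧ z ∈ U} ⊆ (fun i => W i (z.drop k)) ''
          {i | (z.drop k).take n ∈ A i} := by
        rintro U ⟨⟨i, y, hy, rfl⟩ | ⟨j, hj, rfl⟩, hU⟩
        · have h3 := (hWmem i y z hy hU).2
          refine ⟨i, (comp_sub hy h3).2, ?_⟩
          show W i (z.drop k) = W i y
          show _ '' _ = _ '' _
          rw [comp_eq hP h3]
        · have h3 : z.length = j := hU
          omega
      exact (Set.encard_le_encard h1).trans ((Set.encard_image_le _ _).trans (h.mult _ h2))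
  · intro z
    rcases Nat.lt_or_ge z.length (k + n) with hz | hz
    · exact ⟨_, Or.inr ⟨z.length, hz, rfl⟩, orbitBall_sub_words hπ rfl⟩
    · set y := z.drop k with hy
      have hyl : n ≤ y.length := by
        rw [hy, List.length_drop]
        omega
      have h2 : (y.take n).length = n := by
        rw [List.length_take]
        omega
      obtain ⟨i, hi⟩ := h.leb _ h2
      have hyQ : y ∈ Q A n i := ⟨hyl, by simpa using hi 1 hP.one⟩
      refine ⟨_, Or.inl ⟨i, y, hyQ, rfl⟩, ?_⟩
      rintro _ ⟨g, hg, rfl⟩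
      have h3 : (z.take k).length = k := by
        rw [List.length_take]
        omega
      obtain ⟨p, hp, h4⟩ := hk g hg (z.take k) h3
      have h5 : π g z = π g (z.take k) ++ p y := by
        conv_lhs => rw [← List.take_append_drop k z]
        rw [append_eq (hπ g), h4]
      refine ⟨(π g (z.take k), p y), ⟨?_, ?_⟩, h5.symm⟩
      · show (π g (z.take k)).length = k
        rw [(hπ g).1, h3]
      · refine ReflTransGen.single ⟨hyQ, ⟨?_, ?_⟩, p, hp, rfl⟩
        · rw [(hP.tree p hp).1]
          exact hyl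
        · have h6 : p y = p (y.take n) ++ sectionAt p (y.take n) (y.drop n) := by
            conv_lhs => rw [← List.take_append_drop n y]
            rw [append_eq (hP.tree p hp)]
          have h7 : (p (y.take n)).length = n := by rw [(hP.tree p hp).1, h2]
          rw [h6, List.take_left' h7]
          exact hi p hp

end Pool.Agent.Lib.H31Q
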