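import Pool.Agent.Lib.H31Q.Lift

/-!
# H31Q: groups with free subgroups have exponential growth
-/

set_option autoImplicit false

namespace Pool.Agent.Lib.H31Q

open Pool.Agent.Lib.Helper67.BA Pool.Agent.Lib.Helper67.FCC

theorem growth_of_free {G : Type*} [Group G] {ψ : FreeGroup Bool →* G}
    (hψ : Function.Injective ψ) {S : Set G} (hSf : S.Finite) (hS : Subgroup.closure S = ⊤) :
    ∃ c : ℝ, 0 < c ∧ ∀ r : ℕ, Real.exp (c * r) ≤ (Set.ncard {x : G | InBall S r x} : ℝ) := by
  classical
  let a : Bool → G := fun b => ψ (FreeGroup.of b)
  choose L hL using fun b => exists_inBall hS (a b)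
  let W : List Bool → G := fun l => (l.map a).prod
  have hWψ : ∀ l : List Bool, W l = ψ (posW l) := by
    intro l
    simp [W, posW, a, map_list_prod, List.map_map, Function.comp_def]
  have hW : Function.Injective W := by
    intro l l' h
    rw [hWψ, hWψ] at h
    exact posW_inj (hψ h)
  let D : ℕ := L true + L false + 1
  have hball : ∀ l : List Bool, InBall S (l.length * (L true + L false)) (W l) := by
    intro l
    induction l with
    | nil => simpa [W] using inBall_one S 0
    | cons b l ih =>
      have h1 : W (b :: l) = a b * W l := by simp [W]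
      rw [h1]
      refine ((hL b).mul ih).mono ?_
      rw [List.length_cons]
      have h2 : L b ≤ L true + L false := by cases b <;> omega
      calc L b + l.length * (L true + L false) ≤
            (L true + L false) + l.length * (L true + L false) := Nat.add_le_add_right h2 _
        _ = (l.length + 1) * (L true + L false) := by ring
  apply exp_bound (D := D) (by omega)
  · intro r
    let F : List.Vector Bool (r / D) → G := fun v => W v.1
    have hF : Function.Injective F := by
      intro v w h
      exact Subtype.ext (hW h)
    have h2 : Set.range F ⊆ {x : G | InBall S r x} := by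
      rintro _ ⟨v, rfl⟩
      refine (hball v.1).mono ?_
      rw [v.2]
      calc r / D * (L true + L false) ≤ r / D * D := Nat.mul_le_mul_left _ (by omega)
        _ ≤ r := Nat.div_mul_le_self r D
    have h3 := Set.ncard_le_ncard h2 (finite_ball hSf r)
    have h4 : Set.ncard (Set.range F) = 2 ^ (r / D) := by
      rw [← Set.image_univ, Set.ncard_image_of_injective _ hF, Set.ncard_univ,
        Nat.card_eq_fintype_card, card_vector, Fintype.card_bool]
    rwa [h4] at h3
  · intro r hr
    have h1 : ∃ s ∈ S, s ≠ 1 := by
      by_contra hcon
      push Not at hcon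
      have h2 : Subgroup.closure S ≤ ⊥ := by
        rw [Subgroup.closure_le]
        intro s hs
        exact Subgroup.mem_bot.2 (hcon s hs)
      rw [hS] at h2
      have h3 : W [true] = 1 := Subgroup.mem_bot.1 (h2 (Subgroup.mem_top _))
      have h4 : W [] = 1 := rfl
      have h5 := hW (h3.trans h4.symm)
      simp at h5
    obtain ⟨s, hs, hs1⟩ := h1
    have h2 : ({s, 1} : Set G) ⊆ {x : G | InBall S r x} := by
      rintro x (rfl | rfl)
      · exact ⟨[x], by simpa using hr, by simpa using Or.inl hs, by simp⟩
      · exact inBall_one S r
    have h3 := Set.ncard_le_ncard h2 (finite_ball hSf r)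
    rwa [Set.ncard_pair hs1] at h3

end Pool.Agent.Lib.H31Q
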