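import Pool.Agent.Lib.H31Q.Slow
import Pool.Agent.Lib.Helper67.BA.Monster

/-!
# H31Q: homomorphisms of finitely presented groups to faithful quotients of wreath recursions
-/

set_option autoImplicit false

namespace Pool.Agent.Lib.H31Q

open Set

universe u

/-- `G` has an abelian subgroup of finite index. -/
def VirtAbelian (G : Type u) [Group G] : Prop :=
  ∃ A : Subgroup G, A.FiniteIndex ∧ ∀ x ∈ A, ∀ y ∈ A, x * y = y * x

/-- `F` acts on the tree by `α` with sections `τ` in `F`, and the sections at long words of the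
elements acting trivially are trivial. -/
def IsRecursion {X F : Type} [Group F] (α : F →* Equiv.Perm (List X)) (τ : F → List X → F) :
    Prop :=
  (∀ f, IsTreeAutomorphism (α f)) ∧
  (∀ f v, sectionAt (α f) v = α (τ f v)) ∧
  (∀ f g v, τ (f * g) v = τ f (α g v) * τ g v) ∧
  ∀ f, α f = 1 → ∃ n : ℕ, ∀ v : List X, n ≤ v.length → τ f v = 1

/-- Finitely generated subgroups contain a free group of rank two or are virtually abelian. -/
def StrongTits (F : Type) [Group F] : Prop :=
  ∀ H : Subgroup F, H.FG → (∃ ψ : FreeGroup Bool →* H, Function.Injective ψ) ∨ VirtAbelian H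

variable {X F : Type} [Group F] {E : Type u} [Group E]

theorem tau_one {α : F →* Equiv.Perm (List X)} {τ : F → List X → F} (h : IsRecursion α τ)
    (v : List X) : τ 1 v = 1 := by
  have h1 := h.2.2.1 1 1 v
  rw [mul_one, map_one, Equiv.Perm.coe_one, id] at h1
  exact left_eq_mul.1 h1

/-- The elements which act trivially on the level and have trivial sections there. -/
def levelKer {α : F →* Equiv.Perm (List X)} {τ : F → List X → F} (h : IsRecursion α τ) (N : ℕ) :
    Subgroup F where
  carrier := {f | ∀ v : List X, v.length = N → α f v = v ∧ τ f v = 1}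
  mul_mem' := by
    intro f g hf hg v hv
    refine ⟨?_, ?_⟩
    · rw [map_mul, Equiv.Perm.mul_apply, (hg v hv).1, (hf v hv).1]
    · rw [h.2.2.1, (hg v hv).1, (hg v hv).2, (hf v hv).2, mul_one]
  one_mem' := fun v _ => ⟨by rw [map_one]; rfl, tau_one h v⟩
  inv_mem' := by
    intro f hf v hv
    have h1 : α f⁻¹ v = v := by
      rw [map_inv, Equiv.Perm.inv_eq_iff_eq, (hf v hv).1]
    refine ⟨h1, ?_⟩
    have h2 := h.2.2.1 f⁻¹ f v
    rw [inv_mul_cancel, tau_one h, (hf v hv).1, (hf v hv).2, mul_one] at h2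
    exact h2.symm

theorem levelKer_normal {α : F →* Equiv.Perm (List X)} {τ : F → List X → F}
    (h : IsRecursion α τ) (N : ℕ) : (levelKer h N).Normal := by
  constructor
  intro f hf g v hv
  set w := α g⁻¹ v with hw
  have hwl : w.length = N := by rw [hw, (h.1 g⁻¹).1, hv]
  have h1 : α g w = v := by
    rw [hw, map_inv]
    exact Equiv.apply_symm_apply _ _
  have h2 : α (f * g⁻¹) v = w := by
    rw [map_mul, Equiv.Perm.mul_apply, ← hw, (hf w hwl).1]
  refine ⟨?_, ?_⟩
  · rw [mul_assoc, map_mul, Equiv.Perm.mul_apply, h2, h1]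
  · rw [mul_assoc, h.2.2.1, h2, h.2.2.1, ← hw, (hf w hwl).2, one_mul]
    have h3 := h.2.2.1 g g⁻¹ v
    rw [mul_inv_cancel, tau_one h, ← hw] at h3
    exact h3.symm

theorem free_lift {A : Type*} [Group A] {B : Type*} [Group B] (ρ : A →* B)
    (h : ∃ ψ : FreeGroup Bool →* ρ.range, Function.Injective ψ) :
    ∃ ψ : FreeGroup Bool →* A, Function.Injective ψ := by
  obtain ⟨ψ, hψ⟩ := h
  choose a ha using fun b : Bool => (ψ (FreeGroup.of b)).2
  refine ⟨FreeGroup.lift a, ?_⟩
  have h1 : ρ.comp (FreeGroup.lift a) = ρ.range.subtype.comp ψ := by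
    apply FreeGroup.ext_hom
    intro b
    simp [ha]
  have h2 : Function.Injective (ρ.comp (FreeGroup.lift a)) := by
    rw [h1]
    exact Subtype.val_injective.comp hψ
  exact Function.Injective.of_comp h2

/-- The pullback of a virtually abelian image. -/
theorem exists_comm {A : Type*} [Group A] {B : Type*} [Group B] (ρ : A →* B)
    (h : VirtAbelian ρ.range) :
    ∃ C : Subgroup A, C.FiniteIndex ∧ ∀ x ∈ C, ∀ y ∈ C, ρ (x * y) = ρ (y * x) := by
  obtain ⟨D, hD, h1⟩ := h
  refine ⟨D.comap ρ.rangeRestrict, ?_, fun x hx y hy => ?_⟩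
  · constructor
    rw [Subgroup.index_comap_of_surjective _ ρ.rangeRestrict_surjective]
    exact hD.index_ne_zero
  · have h2 := congrArg Subtype.val (h1 _ hx _ hy)
    rw [map_mul, map_mul]
    exact h2

theorem comm_of_recursion [Finite X] [hfp : Group.IsFinitelyPresented E]
    (hE : ¬ ∃ ψ : FreeGroup Bool →* E, Function.Injective ψ)
    {α : F →* Equiv.Perm (List X)} {τ : F → List X → F} (h : IsRecursion α τ)
    (hF : StrongTits F) (π : E →* Equiv.Perm (List X)) (hπ : ∀ e, ∃ f, α f = π e) :
    ∃ C : Subgroup E, C.FiniteIndex ∧ ∀ x ∈ C, ∀ y ∈ C, π (x * y) = π (y * x) := by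
  classical
  obtain ⟨n, φ, hφ, R, hRf, hR⟩ := hfp.out
  have hfg : Group.FG E := Group.fg_of_surjective hφ
  choose s hs using fun i : Fin n => hπ (φ (FreeGroup.of i))
  let ℓ : FreeGroup (Fin n) →* F := FreeGroup.lift s
  have hℓ : ∀ w, α (ℓ w) = π (φ w) := by
    have h1 : α.comp ℓ = π.comp φ := by
      apply FreeGroup.ext_hom
      intro i
      simp [ℓ, hs]
    intro w
    exact DFunLike.congr_fun h1 w
  have htree : ∀ e, IsTreeAutomorphism (π e) := by
    intro e
    obtain ⟨f, hf⟩ := hπ e
    rw [← hf]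
    exact h.1 f
  have hker : ∀ r ∈ R, φ r = 1 := by
    intro r hr
    have h1 : r ∈ Subgroup.normalClosure R := Subgroup.subset_normalClosure hr
    rw [hR] at h1
    exact h1
  have hN : ∃ N : ℕ, ∀ r ∈ R, ∀ v : List X, N ≤ v.length → τ (ℓ r) v = 1 := by
    have h1 : ∀ r : FreeGroup (Fin n), r ∈ R → ∃ N : ℕ, ∀ v : List X, N ≤ v.length →
        τ (ℓ r) v = 1 := by
      intro r hr
      apply h.2.2.2
      rw [hℓ, hker r hr, map_one]
    choose! κ hκ using h1
    obtain ⟨N, hN⟩ := (hRf.image κ).bddAbove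
    exact ⟨N, fun r hr v hv => hκ r hr v ((hN ⟨r, hr, rfl⟩).trans hv)⟩
  obtain ⟨N, hN⟩ := hN
  have hnorm := levelKer_normal h N
  have hK : φ.ker ≤ (levelKer h N).comap ℓ := by
    rw [← hR]
    apply Subgroup.normalClosure_le_normal
    intro r hr v hv
    refine ⟨?_, hN r hr v hv.ge⟩
    show α (ℓ r) v = v
    rw [hℓ, hker r hr, map_one]
    rfl
  have hwd : ∀ (a b : FreeGroup (Fin n)), φ a = φ b → ∀ v : List X, v.length = N →
      τ (ℓ a) v = τ (ℓ b) v := by
    intro a b hab v hv
    have h1 : b⁻¹ * a ∈ φ.ker := by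
      rw [MonoidHom.mem_ker, map_mul, map_inv, hab, inv_mul_cancel]
    have h2 := hK h1 v hv
    have h3 : ℓ a = ℓ b * ℓ (b⁻¹ * a) := by
      rw [← map_mul, mul_inv_cancel_left]
    rw [h3, h.2.2.1, h2.1, h2.2, mul_one]
  choose w hw using hφ
  have hsec : ∀ e v, sectionAt (π e) v = α (τ (ℓ (w e)) v) := by
    intro e v
    rw [← h.2.1, hℓ, hw]
  let act : MulAction E (List X) := MulAction.compHom _ π
  have hact : ∀ (e : E) (v : List X), e • v = π e v := fun _ _ => rfl
  let A : Subgroup E := ⨅ v : {v : List X // v.length = N}, MulAction.stabilizer E v.1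
  have hfinv : Finite {v : List X // v.length = N} := (words_finite (X := X) N).to_subtype
  have hA : A.FiniteIndex := by
    apply Subgroup.finiteIndex_iInf
    intro v
    constructor
    rw [MulAction.index_stabilizer]
    have h1 : (MulAction.orbit E v.1) ⊆ {z : List X | z.length = N} := by
      rintro _ ⟨e, rfl⟩
      show (π e v.1).length = N
      rw [(htree e).1, v.2]
    have h2 := (words_finite (X := X) N).subset h1
    rw [Ne, Set.ncard_eq_zero h2]
    exact (MulAction.nonempty_orbit v.1).ne_empty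
  have hAv : ∀ a ∈ A, ∀ v : List X, v.length = N → π a v = v := by
    intro a ha v hv
    have h1 := (Subgroup.mem_iInf.1 ha) ⟨v, hv⟩
    exact MulAction.mem_stabilizer_iff.1 h1
  have hAfg : Group.FG A := Subgroup.fg_of_index_ne_zero A
  let ρ : {v : List X // v.length = N} → (A →* F) := fun v =>
    { toFun := fun a => τ (ℓ (w a)) v.1
      map_one' := by
        show τ (ℓ (w ((1 : A) : E))) v.1 = 1
        rw [hwd (w ((1 : A) : E)) 1 (by rw [hw, map_one]; rfl) v.1 v.2, map_one, tau_one h]
      map_mul' := by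
        intro a b
        show τ (ℓ (w ((a * b : A) : E))) v.1 = _
        rw [hwd (w ((a * b : A) : E)) (w a * w b) (by rw [map_mul, hw, hw, hw]; rfl) v.1 v.2,
          map_mul, h.2.2.1, hℓ, hw, hAv b b.2 v.1 v.2] }
  have hC : ∀ v : {v : List X // v.length = N}, ∃ C : Subgroup A, C.FiniteIndex ∧
      ∀ x ∈ C, ∀ y ∈ C, ρ v (x * y) = ρ v (y * x) := by
    intro v
    apply exists_comm
    have h1 : (ρ v).range.FG := by
      rw [← Group.fg_iff_subgroup_fg]
      exact Group.fg_range (ρ v)
    rcases hF _ h1 with h2 | h2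
    · exfalso
      obtain ⟨ψ, hψ⟩ := free_lift (ρ v) h2
      exact hE ⟨A.subtype.comp ψ, Subtype.val_injective.comp hψ⟩
    · exact h2
  choose C hC1 hC2 using hC
  refine ⟨(⨅ v, C v).map A.subtype, ?_, ?_⟩
  · have h1 : (⨅ v, C v).FiniteIndex := Subgroup.finiteIndex_iInf hC1
    constructor
    rw [Subgroup.index_map_subtype]
    exact mul_ne_zero h1.index_ne_zero hA.index_ne_zero
  · rintro _ ⟨x, hx, rfl⟩ _ ⟨y, hy, rfl⟩
    have hxy : ∀ v : List X, v.length = N → ∀ z : List X,
        π ((x : E) * y) (v ++ z) = π ((y : E) * x) (v ++ z) := by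
      intro v hv z
      have h1 := hC2 ⟨v, hv⟩ x ((Subgroup.mem_iInf.1 hx) _) y ((Subgroup.mem_iInf.1 hy) _)
      have h2 : τ (ℓ (w ((x * y : A) : E))) v = τ (ℓ (w ((y * x : A) : E))) v := h1
      rw [append_eq (htree _), append_eq (htree _), hsec, hsec]
      have h3 : π ((x : E) * y) v = v := hAv _ (A.mul_mem x.2 y.2) v hv
      have h4 : π ((y : E) * x) v = v := hAv _ (A.mul_mem y.2 x.2) v hv
      rw [h3, h4]
      show v ++ α (τ (ℓ (w ((x * y : A) : E))) v) z = v ++ α (τ (ℓ (w ((y * x : A) : E))) v) z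
      rw [h2]
    apply Equiv.ext
    intro z
    rcases Nat.lt_or_ge z.length N with hz | hz
    · rcases isEmpty_or_nonempty X with hX | hX
      · have h0 : ∀ u : List X, u = [] := by
          intro u
          cases u with
          | nil => rfl
          | cons a _ => exact (IsEmpty.false a).elim
        rw [h0 (π _ z), h0 (π (A.subtype y * A.subtype x) z)]
      · obtain ⟨x₀⟩ := hX
        have h1 : (z ++ List.replicate (N - z.length) x₀).length = N := by
          rw [List.length_append, List.length_replicate]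
          omega
        have h2 : ∀ a ∈ A, π a z = z := by
          intro a ha
          have h3 := hAv a ha _ h1
          rw [append_eq (htree a)] at h3
          exact List.append_inj_left h3 (by rw [(htree a).1])
        show π ((x : E) * y) z = π ((y : E) * x) z
        rw [h2 _ (A.mul_mem x.2 y.2), h2 _ (A.mul_mem y.2 x.2)]
    · have h1 := hxy (z.take N) (by rw [List.length_take]; omega) (z.drop N)
      rw [List.take_append_drop] at h1
      exact h1

end Pool.Agent.Lib.H31Q
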