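import Pool.Agent.Lib.H31Q.Top

/-!
# H31Q: contracting self-similar images with one-dimensional limit spaces
-/

set_option autoImplicit false

namespace Pool.Agent.Lib.H31Q

open Set Filter Topology Relation
open Pool.Agent.Lib.Helper67.BN (ball orbitBall ball_finite)

universe u

variable {X : Type} {E : Type u} [Group E]

/-- The image of `π` is a self-similar group and it is contracting. -/
def ContractingSelfSimilar (π : E →* Equiv.Perm (List X)) : Prop :=
  (∀ e, IsTreeAutomorphism (π e)) ∧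
  (∀ (e : E) (v : List X), ∃ e' : E, sectionAt (π e) v = π e') ∧
  ∃ F : Set E, F.Finite ∧ ∀ e : E, ∃ k : ℕ, ∀ v : List X, k ≤ v.length →
    ∃ f ∈ F, sectionAt (π e) v = π f

/-- Asymptotic equivalence of left-infinite words `... ξ 2, ξ 1, ξ 0`. -/
def AsymptoticallyEquivalent (π : E →* Equiv.Perm (List X)) (ξ η : ℕ → X) : Prop :=
  ∃ F : Set E, F.Finite ∧ ∀ n : ℕ, ∃ g ∈ F, π g (leftWord ξ n) = leftWord η n

/-- All sections of the elements of `F` and their inverses. -/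
def nucOf (π : E →* Equiv.Perm (List X)) (F : Set E) : Set (Equiv.Perm (List X)) :=
  {p | ∃ f, (f ∈ F ∨ f⁻¹ ∈ F ∨ f = 1) ∧ ∃ v : List X, sectionAt (π f) v = p}

theorem section_inv {g : Equiv.Perm (List X)} (hg : IsTreeAutomorphism g)
    (hgi : IsTreeAutomorphism g⁻¹) {v : List X} {p : Equiv.Perm (List X)}
    (h : sectionAt g v = p) : sectionAt g⁻¹ (g v) = (p⁻¹ : Equiv.Perm (List X)) := by
  funext w
  have h4 := section_mul hgi hg v (p⁻¹ w)
  rw [h, inv_mul_cancel] at h4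
  have h5 : p (p⁻¹ w) = w := Equiv.apply_symm_apply p w
  rw [h5] at h4
  rw [← h4]
  show (v ++ p⁻¹ w).drop v.length = p⁻¹ w
  rw [List.drop_left]

theorem finite_sections [Finite X] {π : E →* Equiv.Perm (List X)} {F : Set E} (hF : F.Finite)
    {e : E} {k : ℕ} (hk : ∀ v : List X, k ≤ v.length → ∃ f ∈ F, sectionAt (π e) v = π f) :
    {s : List X → List X | ∃ v, sectionAt (π e) v = s}.Finite := by
  have h1 : {s : List X → List X | ∃ v, sectionAt (π e) v = s} ⊆
      (sectionAt (π e) '' ⋃ j ∈ Set.Iio k, {v : List X | v.length = j}) ∪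
        (fun f : E => (π f : List X → List X)) '' F := by
    rintro s ⟨v, rfl⟩
    rcases Nat.lt_or_ge v.length k with h | h
    · left
      refine ⟨v, ?_, rfl⟩
      rw [Set.mem_iUnion₂]
      exact ⟨v.length, h, rfl⟩
    · obtain ⟨f, hf, h2⟩ := hk v h
      exact Or.inr ⟨f, hf, h2.symm⟩
  refine Set.Finite.subset (Set.Finite.union (Set.Finite.image _ ?_) (hF.image _)) h1
  exact (Set.finite_Iio k).biUnion fun j _ => words_finite j

theorem nucOf_nuc [Finite X] {π : E →* Equiv.Perm (List X)} (h : ContractingSelfSimilar π)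
    {F : Set E} (hF : F.Finite)
    (hc : ∀ e : E, ∃ k : ℕ, ∀ v : List X, k ≤ v.length → ∃ f ∈ F, sectionAt (π e) v = π f) :
    Nuc (nucOf π F) := by
  obtain ⟨htree, hss, -⟩ := h
  have hrange : ∀ p ∈ nucOf π F, ∃ e, π e = p := by
    rintro p ⟨f, -, v, h1⟩
    obtain ⟨e, he⟩ := hss f v
    exact ⟨e, Equiv.ext fun w => by rw [← h1, he]⟩
  have hmem : ∀ f ∈ F, π f ∈ nucOf π F := by
    intro f hf
    refine ⟨f, Or.inl hf, [], ?_⟩
    funext w
    rfl
  refine ⟨?_, ?_, ?_, ?_, ?_, ?_⟩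
  · intro p hp
    obtain ⟨e, rfl⟩ := hrange p hp
    exact htree e
  · have h1 : (F ∪ (fun f => f⁻¹) '' F ∪ {1}).Finite :=
      (hF.union (hF.image _)).union (Set.finite_singleton 1)
    have h2 : (⋃ f ∈ (F ∪ (fun f => f⁻¹) '' F ∪ {1}),
        {s : List X → List X | ∃ v, sectionAt (π f) v = s}).Finite := by
      refine h1.biUnion fun f _ => ?_
      obtain ⟨k, hk⟩ := hc f
      exact finite_sections hF hk
    refine Set.Finite.of_finite_image (f := fun p : Equiv.Perm (List X) =>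
      (p : List X → List X)) (h2.subset ?_) (fun a _ b _ hab => Equiv.ext fun w => congrFun hab w)
    rintro _ ⟨p, ⟨f, hf, v, h3⟩, rfl⟩
    rw [Set.mem_iUnion₂]
    refine ⟨f, ?_, v, h3⟩
    rcases hf with hf | hf | hf
    · exact Or.inl (Or.inl hf)
    · exact Or.inl (Or.inr ⟨f⁻¹, hf, inv_inv f⟩)
    · exact Or.inr hf
  · refine ⟨1, Or.inr (Or.inr rfl), [], ?_⟩
    rw [map_one]
    rfl
  · rintro p ⟨f, hf, v, h1⟩
    refine ⟨f⁻¹, ?_, π f v, ?_⟩
    · rcases hf with hf | hf | hf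
      · exact Or.inr (Or.inl (by rwa [inv_inv]))
      · exact Or.inl hf
      · exact Or.inr (Or.inr (by rw [hf, inv_one]))
    · have h2 : IsTreeAutomorphism (π f)⁻¹ := by
        rw [← map_inv]
        exact htree _
      rw [map_inv]
      exact section_inv (htree f) h2 h1
  · rintro p ⟨f, hf, v, h1⟩ w
    obtain ⟨e, he⟩ := hss f (v ++ w)
    refine ⟨π e, ⟨f, hf, v ++ w, he⟩, ?_⟩
    rw [← he]
    funext z
    rw [section_append (htree f), h1]
    rfl
  · intro p hp q hq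
    obtain ⟨e, rfl⟩ := hrange p hp
    obtain ⟨e', rfl⟩ := hrange q hq
    obtain ⟨k, hk⟩ := hc (e * e')
    refine ⟨k, fun v hv => ?_⟩
    obtain ⟨f, hf, h1⟩ := hk v hv
    refine ⟨π f, hmem f hf, ?_⟩
    rw [← map_mul]
    exact h1

theorem exists_scale_k {π : E →* Equiv.Perm (List X)} {F : Set E}
    (hc : ∀ e : E, ∃ k : ℕ, ∀ v : List X, k ≤ v.length → ∃ f ∈ F, sectionAt (π e) v = π f)
    {B : Set E} (hB : B.Finite) :
    ∃ k : ℕ, ∀ g ∈ B, ∀ v : List X, v.length = k → ∃ p ∈ nucOf π F, sectionAt (π g) v = p := by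
  choose κ hκ using hc
  obtain ⟨k, hk⟩ := (hB.image κ).bddAbove
  refine ⟨k, fun g hg v hv => ?_⟩
  obtain ⟨f, hf, h1⟩ := hκ g v (by rw [hv]; exact hk ⟨g, hg, rfl⟩)
  exact ⟨π f, ⟨f, Or.inl hf, [], by funext w; rfl⟩, h1⟩

theorem asymp_iff [Finite X] {π : E →* Equiv.Perm (List X)} (h : ContractingSelfSimilar π)
    {F : Set E} (hF : F.Finite)
    (hc : ∀ e : E, ∃ k : ℕ, ∀ v : List X, k ≤ v.length → ∃ f ∈ F, sectionAt (π e) v = π f)
    (ξ η : ℕ → X) : AsymptoticallyEquivalent π ξ η ↔ NRel (nucOf π F) ξ η := by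
  have hN := nucOf_nuc h hF hc
  constructor
  · rintro ⟨B, hB, h1⟩ n
    obtain ⟨k, hk⟩ := exists_scale_k hc hB
    obtain ⟨g, hg, h2⟩ := h1 (n + k)
    obtain ⟨p, hp, h3⟩ := hk g hg (leftWord (fun i => ξ (n + i)) k) (leftWord_length _ _)
    refine ⟨p, hp, ?_⟩
    rw [leftWord_add, leftWord_add, append_eq (h.1 g), h3] at h2
    exact List.append_inj_right h2 (by rw [(h.1 g).1, leftWord_length, leftWord_length])
  · intro h1
    have h2 : ∀ p : Equiv.Perm (List X), p ∈ nucOf π F → ∃ e, π e = p := by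
      rintro p ⟨f, -, v, h1⟩
      obtain ⟨e, he⟩ := h.2.1 f v
      exact ⟨e, Equiv.ext fun w => by rw [← h1, he]⟩
    choose! ε hε using h2
    refine ⟨ε '' nucOf π F, hN.fin.image ε, fun n => ?_⟩
    obtain ⟨p, hp, h3⟩ := h1 n
    exact ⟨ε p, ⟨p, hp, rfl⟩, by rw [hε p hp, h3]⟩

/-- Thin covers at all scales for actions by elements of a contracting self-similar group with a
one-dimensional limit space. -/
theorem thinCover_of_limitSpace [Finite X] [Nonempty X] [TopologicalSpace X] [DiscreteTopology X]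
    {j : E →* Equiv.Perm (List X)} (h : ContractingSelfSimilar j)
    (hdim : CoveringDimLE (Quot (AsymptoticallyEquivalent j)) 1) {G : Type*} [Group G]
    {π : G →* Equiv.Perm (List X)} (hπ : ∀ g, ∃ e, j e = π g) {S : Set G} (hS : S.Finite)
    (r : ℕ) : ∃ b, Pool.Agent.Lib.H65D.ThinCover π S r b := by
  obtain ⟨F, hF, hc⟩ := h.2.2
  have hN := nucOf_nuc h hF hc
  obtain ⟨ι, A, n, m, hA⟩ := exists_cov hN (asymp_iff h hF hc) hdim
  choose ε hε using hπ
  obtain ⟨k, hk⟩ := exists_scale_k hc ((ball_finite hS r).image ε)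
  refine hA.thinCover (k := k) hN (fun g => by rw [← hε]; exact h.1 _) fun g hg v hv => ?_
  obtain ⟨p, hp, h1⟩ := hk (ε g) ⟨g, hg, rfl⟩ v hv
  exact ⟨p, hp, by rw [← hε, h1]⟩

end Pool.Agent.Lib.H31Q
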