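import Pool.Agent.Lib.H31Q.Slow

/-!
# H31Q: isotropy groups of a contracting action are finite, uniformly
-/

set_option autoImplicit false

namespace Pool.Agent.Lib.H31Q

open Set Filter Topology

variable {X : Type}

/-- `[ξ (n - 1), ..., ξ 1, ξ 0]`. -/
def leftWord (ξ : ℕ → X) : ℕ → List X
  | 0 => []
  | n + 1 => ξ n :: leftWord ξ n

theorem leftWord_length (ξ : ℕ → X) (n : ℕ) : (leftWord ξ n).length = n := by
  induction n with
  | zero => rfl
  | succ n ih => simp [leftWord, ih]

theorem leftWord_congr {ξ η : ℕ → X} {n : ℕ} (h : ∀ i < n, ξ i = η i) :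
    leftWord ξ n = leftWord η n := by
  induction n with
  | zero => rfl
  | succ n ih =>
    simp only [leftWord]
    rw [h n (by omega), ih fun i hi => h i (by omega)]

theorem eq_of_leftWord {ξ η : ℕ → X} {n : ℕ} (h : leftWord ξ n = leftWord η n) :
    ∀ i < n, ξ i = η i := by
  induction n with
  | zero => intro i hi; omega
  | succ n ih =>
    simp only [leftWord, List.cons.injEq] at h
    intro i hi
    rcases Nat.lt_succ_iff_lt_or_eq.1 hi with h1 | rfl
    · exact ih h.2 i h1
    · exact h.1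

/-- the first `k` letters of the left word of length `n + k` -/
theorem leftWord_add (ξ : ℕ → X) (n k : ℕ) :
    leftWord ξ (n + k) = leftWord (fun i => ξ (n + i)) k ++ leftWord ξ n := by
  induction k with
  | zero => rfl
  | succ k ih =>
    rw [← Nat.add_assoc]
    simp only [leftWord, List.cons_append, ih]

theorem exists_leftWord [Nonempty X] (v : List X) : ∃ ξ : ℕ → X, leftWord ξ v.length = v := by
  classical
  induction v with
  | nil => exact ⟨fun _ => Classical.arbitrary X, rfl⟩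
  | cons x v ih =>
    obtain ⟨ξ, hξ⟩ := ih
    refine ⟨Function.update ξ v.length x, ?_⟩
    simp only [List.length_cons, leftWord, Function.update_self]
    congr 1
    rw [← hξ]
    rw [leftWord_length]
    refine leftWord_congr fun i hi => ?_
    rw [Function.update_of_ne (by omega)]

/-- A nucleus-like finite set of tree automorphisms. -/
structure Nuc (P : Set (Equiv.Perm (List X))) : Prop where
  tree : ∀ p ∈ P, IsTreeAutomorphism p
  fin : P.Finite
  one : 1 ∈ P
  inv : ∀ p ∈ P, p⁻¹ ∈ P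
  sec : ∀ p ∈ P, ∀ v, ∃ q ∈ P, sectionAt p v = q
  contr : ∀ p ∈ P, ∀ q ∈ P, ∃ k, ∀ v : List X, k ≤ v.length → ∃ r ∈ P, sectionAt (p * q) v = r

theorem tree_mul {p q : Equiv.Perm (List X)} (hp : IsTreeAutomorphism p)
    (hq : IsTreeAutomorphism q) : IsTreeAutomorphism (p * q) := by
  refine ⟨fun w => ?_, fun v w => ?_⟩
  · rw [Equiv.Perm.mul_apply, hp.1, hq.1]
  · rw [Equiv.Perm.mul_apply, Equiv.Perm.mul_apply, append_eq hq]
    exact hp.2 _ _

theorem section_mul {p q : Equiv.Perm (List X)} (hp : IsTreeAutomorphism p)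
    (hq : IsTreeAutomorphism q) (v w : List X) :
    sectionAt (p * q) v w = sectionAt p (q v) (sectionAt q v w) := by
  have h1 := append_eq (tree_mul hp hq) v w
  rw [Equiv.Perm.mul_apply, Equiv.Perm.mul_apply, append_eq hq, append_eq hp] at h1
  exact (List.append_cancel_left h1).symm

theorem section_append {p : Equiv.Perm (List X)} (hp : IsTreeAutomorphism p) (u v w : List X) :
    sectionAt p (u ++ v) w = (sectionAt p u (v ++ w)).drop v.length := by
  unfold sectionAt
  rw [List.drop_drop, List.length_append, List.append_assoc]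

/-- The sections at `u` of the elements of `Q` which fix `u`. -/
def iso (Q : Set (Equiv.Perm (List X))) (u : List X) : Set (Equiv.Perm (List X)) :=
  {s | ∃ p ∈ Q, p u = u ∧ sectionAt p u = s}

theorem iso_sub {P : Set (Equiv.Perm (List X))} (hP : Nuc P) (u v : List X) :
    iso P (u ++ v) ⊆ iso P v := by
  rintro s ⟨p, hp, h1, h2⟩
  obtain ⟨q, hq, h3⟩ := hP.sec p hp u
  have hpt := hP.tree p hp
  rw [append_eq hpt] at h1
  have h4 : p u = u := List.append_inj_left h1 (by rw [hpt.1])
  have h5 : sectionAt p u v = v := List.append_inj_right h1 (by rw [hpt.1])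
  refine ⟨q, hq, ?_, ?_⟩
  · rw [← h3]
    exact h5
  · rw [← h2]
    funext w
    rw [section_append hpt, h3]
    rfl

theorem iso_sub_self {P : Set (Equiv.Perm (List X))} (hP : Nuc P) (u : List X) : iso P u ⊆ P := by
  rintro s ⟨p, hp, -, h2⟩
  obtain ⟨q, hq, h3⟩ := hP.sec p hp u
  have h4 : q = s := by
    apply Equiv.ext
    intro w
    rw [← h3, h2]
  rwa [← h4]

theorem one_mem_iso {P : Set (Equiv.Perm (List X))} (hP : Nuc P) (u : List X) : 1 ∈ iso P u := by
  refine ⟨1, hP.one, rfl, ?_⟩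
  funext w
  show (u ++ w).drop u.length = w
  rw [List.drop_left]

theorem inv_mem_iso {P : Set (Equiv.Perm (List X))} (hP : Nuc P) {u : List X}
    {s : Equiv.Perm (List X)} (hs : s ∈ iso P u) : s⁻¹ ∈ iso P u := by
  obtain ⟨p, hp, h1, h2⟩ := hs
  have h3 : p⁻¹ u = u := by
    rw [Equiv.Perm.inv_eq_iff_eq, h1]
  refine ⟨p⁻¹, hP.inv p hp, h3, ?_⟩
  funext w
  have h4 := section_mul (hP.tree _ (hP.inv p hp)) (hP.tree p hp) u (s⁻¹ w)
  rw [h1, h2, inv_mul_cancel] at h4
  have h5 : s (s⁻¹ w) = w := Equiv.apply_symm_apply s w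
  rw [h5] at h4
  rw [← h4]
  show (u ++ s⁻¹ w).drop u.length = s⁻¹ w
  rw [List.drop_left]

theorem exists_uniform {P : Set (Equiv.Perm (List X))} (hP : Nuc P) :
    ∃ K : ℕ, ∀ p ∈ P, ∀ q ∈ P, ∀ v : List X, K ≤ v.length → ∃ r ∈ P, sectionAt (p * q) v = r := by
  have h1 : ∀ x : Equiv.Perm (List X) × Equiv.Perm (List X), x ∈ P ×ˢ P →
      ∃ k : ℕ, ∀ v : List X, k ≤ v.length → ∃ r ∈ P, sectionAt (x.1 * x.2) v = r :=
    fun x hx => hP.contr _ hx.1 _ hx.2
  choose! k hk using h1
  obtain ⟨K, hK⟩ := ((hP.fin.prod hP.fin).image k).bddAbove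
  refine ⟨K, fun p hp q hq v hv => hk (p, q) ⟨hp, hq⟩ v ?_⟩
  exact (hK ⟨(p, q), ⟨hp, hq⟩, rfl⟩).trans hv

theorem exists_uniform3 {P : Set (Equiv.Perm (List X))} (hP : Nuc P) :
    ∃ K : ℕ, ∀ p ∈ P, ∀ q ∈ P, ∀ r ∈ P, ∀ v : List X, K ≤ v.length →
      ∃ s ∈ P, sectionAt (p * (q * r)) v = s := by
  obtain ⟨K, hK⟩ := exists_uniform hP
  refine ⟨K + K, fun p hp q hq r hr v hv => ?_⟩
  have h1 : v = v.take K ++ v.drop K := (List.take_append_drop K v).symm
  have h2 : (v.take K).length = K := by rw [List.length_take]; omega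
  have h3 : K ≤ (v.drop K).length := by rw [List.length_drop]; omega
  obtain ⟨a, ha, h4⟩ := hK q hq r hr (v.take K) h2.ge
  obtain ⟨b, hb, h5⟩ := hP.sec p hp ((q * r) (v.take K))
  obtain ⟨s, hs, h6⟩ := hK b hb a ha (v.drop K) h3
  refine ⟨s, hs, ?_⟩
  have hqr := tree_mul (hP.tree q hq) (hP.tree r hr)
  have hpqr := tree_mul (hP.tree p hp) hqr
  have h7 : sectionAt (p * (q * r)) (v.take K) = b * a := by
    funext w
    rw [section_mul (hP.tree p hp) hqr, h4, h5]
    rfl
  funext w
  rw [h1, section_append hpqr, h7, ← h6]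
  rfl

/-- products of two isotropy elements, after forgetting some letters -/
theorem mul_mem_iso {P : Set (Equiv.Perm (List X))} (hP : Nuc P) {K : ℕ}
    (hK : ∀ p ∈ P, ∀ q ∈ P, ∀ v : List X, K ≤ v.length → ∃ r ∈ P, sectionAt (p * q) v = r)
    {u v : List X} (hu : K ≤ u.length) {a b : Equiv.Perm (List X)} (ha : a ∈ iso P (u ++ v))
    (hb : b ∈ iso P (u ++ v)) : a * b ∈ iso P v := by
  obtain ⟨p, hp, hp1, hp2⟩ := ha
  obtain ⟨q, hq, hq1, hq2⟩ := hb
  obtain ⟨r, hr, h1⟩ := hK p hp q hq u hu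
  have hpt := hP.tree p hp
  have hqt := hP.tree q hq
  have hpq := tree_mul hpt hqt
  have h2 : (p * q) (u ++ v) = u ++ v := by
    rw [Equiv.Perm.mul_apply, hq1, hp1]
  have h2' := h2
  rw [append_eq hpq] at h2'
  have h3 : r v = v := by
    rw [← h1]
    exact List.append_inj_right h2' (by rw [hpq.1])
  refine ⟨r, hr, h3, ?_⟩
  funext w
  have h4 := section_mul hpt hqt (u ++ v) w
  rw [hq1, hp2, hq2, section_append hpq, h1] at h4
  exact h4

theorem exists_limit [Finite X] (U : Ultrafilter ℕ) (ξ : ℕ → ℕ → X) :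
    ∃ η : ℕ → X, ∀ m, ∀ᶠ n in (U : Filter ℕ), leftWord (ξ n) m = leftWord η m := by
  have h1 : ∀ i, ∃ x : X, ∀ᶠ n in (U : Filter ℕ), ξ n i = x := by
    intro i
    rw [← Ultrafilter.eventually_exists_iff]
    exact Filter.Eventually.of_forall fun n => ⟨_, rfl⟩
  choose η hη using h1
  refine ⟨η, fun m => ?_⟩
  induction m with
  | zero => exact Filter.Eventually.of_forall fun n => rfl
  | succ m ih =>
    filter_upwards [ih, hη m] with n h2 h3
    simp only [leftWord, h2, h3]

theorem exists_level_group [Finite X] [Nonempty X] {P : Set (Equiv.Perm (List X))} (hP : Nuc P) :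
    ∃ m : ℕ, ∀ u : List X, m ≤ u.length →
      ∃ H : Subgroup (Equiv.Perm (List X)), iso P u ⊆ H ∧ (H : Set (Equiv.Perm (List X))) ⊆ P := by
  by_contra hcon
  push Not at hcon
  choose u hu hbad using hcon
  choose ξ hξ using fun n : ℕ => exists_leftWord (u n)
  obtain ⟨η, hη⟩ := exists_limit (Filter.hyperfilter ℕ) ξ
  obtain ⟨K, hK⟩ := exists_uniform hP
  have hanti : ∀ m j, iso P (leftWord η (m + j)) ⊆ iso P (leftWord η m) := by
    intro m j
    rw [leftWord_add]
    exact iso_sub hP _ _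
  let H : Subgroup (Equiv.Perm (List X)) :=
    { carrier := {s | ∀ m, s ∈ iso P (leftWord η m)}
      mul_mem' := by
        intro a b ha hb m
        have h1 := ha (m + K)
        have h2 := hb (m + K)
        rw [leftWord_add] at h1 h2
        exact mul_mem_iso hP hK (by rw [leftWord_length]) h1 h2
      one_mem' := fun m => one_mem_iso hP _
      inv_mem' := fun {a} ha m => inv_mem_iso hP (ha m) }
  have hHP : (H : Set (Equiv.Perm (List X))) ⊆ P := fun s hs => iso_sub_self hP _ (hs 0)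
  have h1 : ∀ s : Equiv.Perm (List X), s ∈ P → ∃ m, s ∈ iso P (leftWord η m) → s ∈ H := by
    intro s _
    by_cases h2 : s ∈ H
    · exact ⟨0, fun _ => h2⟩
    · have h3 : ∃ m, s ∉ iso P (leftWord η m) := by
        by_contra h4
        push Not at h4
        exact h2 h4
      obtain ⟨m, hm⟩ := h3
      exact ⟨m, fun h => absurd h hm⟩
  choose! M hM using h1
  obtain ⟨m, hm⟩ := (hP.fin.image M).bddAbove
  have h2 : iso P (leftWord η m) ⊆ H := by
    intro s hs
    have hsP := iso_sub_self hP _ hs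
    apply hM s hsP
    have h3 : M s ≤ m := hm ⟨s, hsP, rfl⟩
    obtain ⟨j, rfl⟩ := Nat.exists_eq_add_of_le h3
    exact hanti _ j hs
  have h3 : ∀ᶠ n in (Filter.hyperfilter ℕ : Filter ℕ), m ≤ n :=
    Nat.hyperfilter_le_atTop (Filter.eventually_ge_atTop m)
  obtain ⟨n, h4, h5⟩ := ((hη m).and h3).exists
  apply hbad n H _ hHP
  have h6 : u n = leftWord (ξ n) (m + ((u n).length - m)) := by
    have := hu n
    rw [show m + ((u n).length - m) = (u n).length by omega, hξ n]
  rw [h6, leftWord_add]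
  exact (iso_sub hP _ _).trans (by rw [h4]; exact h2)

end Pool.Agent.Lib.H31Q
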