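import Pool.Agent.Lib.H31Q.Slow

/-!
# H31Q: contracting actions with small coefficient have few sections
-/

set_option autoImplicit false

namespace Pool.Agent.Lib.H31Q

open Set Filter Topology

universe u

variable {E : Type u} [Group E] {X : Type}

theorem exists_scale_rate {ρ D z B : ℝ} (h0 : 0 < ρ) (h1 : ρ < 1) (hD : 0 < D) (hz0 : 0 ≤ z)
    (hz : z < 1) {ε : ℝ} (hε : 0 < ε) :
    ∃ n k : ℕ, (n : ℝ) * ρ ^ k ≤ D ∧ D / 2 ≤ (n : ℝ) * ρ ^ k ∧ B * z ^ k ≤ ε := by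
  have h2 : ∀ᶠ k : ℕ in atTop, ρ ^ k ≤ D / 2 :=
    (tendsto_pow_atTop_nhds_zero_of_lt_one h0.le h1).eventually_le_const (by positivity)
  have h3 : Tendsto (fun k : ℕ => B * z ^ k) atTop (𝓝 0) := by
    have := (tendsto_pow_atTop_nhds_zero_of_lt_one hz0 hz).const_mul B
    simpa using this
  have h4 : ∀ᶠ k : ℕ in atTop, B * z ^ k ≤ ε := h3.eventually_le_const hε
  obtain ⟨k, h5, h6⟩ := (h2.and h4).exists
  have hp : 0 < ρ ^ k := pow_pos h0 k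
  refine ⟨⌊D / ρ ^ k⌋₊, k, ?_, ?_, h6⟩
  · have h7 := Nat.floor_le (a := D / ρ ^ k) (by positivity)
    calc ((⌊D / ρ ^ k⌋₊ : ℕ) : ℝ) * ρ ^ k ≤ D / ρ ^ k * ρ ^ k :=
          mul_le_mul_of_nonneg_right h7 hp.le
      _ = D := by field_simp
  · have h7 := Nat.lt_floor_add_one (D / ρ ^ k)
    have h8 : D < ((⌊D / ρ ^ k⌋₊ : ℕ) : ℝ) * ρ ^ k + ρ ^ k := by
      have := mul_lt_mul_of_pos_right h7 hp
      have h9 : D / ρ ^ k * ρ ^ k = D := by field_simp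
      rw [h9] at this
      linarith
    linarith

theorem fewSections_of_rates {π : E →* Equiv.Perm (List X)} {S : Set E} {ρ : ℝ} (h0 : 0 < ρ)
    (h1 : ρ < 1) {q : ℕ} {D : ℝ} (hD : 0 < D)
    (hc : ∀ n k : ℕ, (n : ℝ) * ρ ^ k ≤ D → (sections π S n k).ncard ≤ q)
    (h : (Nat.card X : ℝ) * ρ ^ 2 < 1 ∨ ∃ K L : ℝ, 0 ≤ L ∧ L * ρ < 1 ∧
      ∀ k : ℕ, ((activeWords π S k).ncard : ℝ) ≤ K * L ^ k) : FewSections π S := by
  intro c
  rcases h with h | ⟨K, L, hL, hLρ, hK⟩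
  · obtain ⟨n, k, h2, h3, h4⟩ := exists_scale_rate (B := (c : ℝ) * q) h0 h1 hD
      (by positivity : (0 : ℝ) ≤ (Nat.card X : ℝ) * ρ ^ 2) h (ε := (D / 2) ^ 2) (by positivity)
    refine ⟨n, k, Or.inl ?_⟩
    have h5 := hc n k h2
    have hp : 0 < (ρ ^ k) ^ 2 := by positivity
    have h6 : (D / 2) ^ 2 ≤ ((n : ℝ) * ρ ^ k) ^ 2 := pow_le_pow_left₀ (by positivity) h3 2
    have h7 : ((c : ℝ) * q * (Nat.card X : ℝ) ^ k) * (ρ ^ k) ^ 2 ≤ (n : ℝ) ^ 2 * (ρ ^ k) ^ 2 := by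
      calc ((c : ℝ) * q * (Nat.card X : ℝ) ^ k) * (ρ ^ k) ^ 2
          = (c : ℝ) * q * ((Nat.card X : ℝ) * ρ ^ 2) ^ k := by
            rw [mul_pow, ← pow_mul, ← pow_mul, mul_comm 2 k]
            ring
        _ ≤ (D / 2) ^ 2 := h4
        _ ≤ ((n : ℝ) * ρ ^ k) ^ 2 := h6
        _ = (n : ℝ) ^ 2 * (ρ ^ k) ^ 2 := by ring
    have h8 : (c : ℝ) * q * (Nat.card X : ℝ) ^ k ≤ (n : ℝ) ^ 2 := le_of_mul_le_mul_right h7 hp
    have h9 : c * q * Nat.card X ^ k ≤ n ^ 2 := by exact_mod_cast h8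
    exact (Nat.mul_le_mul_right _ (Nat.mul_le_mul_left _ h5)).trans h9
  · obtain ⟨n, k, h2, h3, h4⟩ := exists_scale_rate (B := (c : ℝ) * q * K) h0 h1 hD
      (by positivity : (0 : ℝ) ≤ L * ρ) hLρ (ε := D / 2) (by positivity)
    refine ⟨n, k, Or.inr ?_⟩
    have h5 := hc n k h2
    have hp : 0 < ρ ^ k := by positivity
    have h7 : ((c : ℝ) * q * (activeWords π S k).ncard) * ρ ^ k ≤ (n : ℝ) * ρ ^ k := by
      calc ((c : ℝ) * q * (activeWords π S k).ncard) * ρ ^ k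
          ≤ ((c : ℝ) * q * (K * L ^ k)) * ρ ^ k := by
            refine mul_le_mul_of_nonneg_right ?_ hp.le
            exact mul_le_mul_of_nonneg_left (hK k) (by positivity)
        _ = (c : ℝ) * q * K * (L * ρ) ^ k := by rw [mul_pow]; ring
        _ ≤ D / 2 := h4
        _ ≤ (n : ℝ) * ρ ^ k := h3
    have h8 : (c : ℝ) * q * (activeWords π S k).ncard ≤ (n : ℝ) := le_of_mul_le_mul_right h7 hp
    have h9 : c * q * (activeWords π S k).ncard ≤ n := by exact_mod_cast h8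
    exact (Nat.mul_le_mul_right _ (Nat.mul_le_mul_left _ h5)).trans h9

end Pool.Agent.Lib.H31Q
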