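import Pool.Agent.Lib.H10G.Cut

/-!
# H31Q: actions on rooted trees with few sections have no thick points
-/

set_option autoImplicit false

namespace Pool.Agent.Lib.H31Q

open Set
open Pool.Agent.Lib.Helper67.BN (ball orbitBall ball_mono one_mem_ball ball_mul ball_inv
  orbitBall_mono mem_orbitBall_self orbitBall_finite mem_orbitBall_succ ball_finite)
open Pool.Agent.Lib.H10G (Separates Thick)

universe u v

variable {E : Type u} [Group E]

/-! ### Closing up inside a finite set -/

section comp

variable {V : Type v}

/-- The points outside `A` which are reached from the ball by at most `j` moves avoiding `A`. -/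
def reach (π : E →* Equiv.Perm V) (S : Set E) (A : Set V) (y : V) (n : ℕ) : ℕ → Set V
  | 0 => orbitBall π S y n \ A
  | j + 1 => {z | z ∉ A ∧ ∃ u ∈ reach π S A y n j, z ∈ orbitBall π S u 1}

theorem reach_succ {π : E →* Equiv.Perm V} {S : Set E} {A : Set V} {y : V} {n j : ℕ} :
    reach π S A y n (j + 1) = {z | z ∉ A ∧ ∃ u ∈ reach π S A y n j, z ∈ orbitBall π S u 1} := rfl

theorem reach_notMem {π : E →* Equiv.Perm V} {S : Set E} {A : Set V} {y : V} {n j : ℕ} {z : V}
    (h : z ∈ reach π S A y n j) : z ∉ A := by
  cases j with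
  | zero => exact h.2
  | succ j => exact h.1

theorem reach_sub_succ (π : E →* Equiv.Perm V) (S : Set E) (A : Set V) (y : V) (n j : ℕ) :
    reach π S A y n j ⊆ reach π S A y n (j + 1) := by
  intro z hz
  rw [reach_succ]
  exact ⟨reach_notMem hz, z, hz, mem_orbitBall_self π S z 1⟩

theorem reach_ball (π : E →* Equiv.Perm V) (S : Set E) (A : Set V) (y : V) (n j : ℕ) :
    reach π S A y n j ⊆ orbitBall π S y (n + j) := by
  induction j with
  | zero => exact fun z hz => hz.1
  | succ j ih =>
    rw [reach_succ]
    rintro z ⟨-, u, hu, g, hg, rfl⟩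
    obtain ⟨h, hh, rfl⟩ := ih hu
    refine ⟨g * h, ?_, by rw [map_mul]; rfl⟩
    have h1 := ball_mul hg hh
    exact ball_mono (by omega) h1

theorem reach_sub {π : E →* Equiv.Perm V} {S : Set E} {A T : Set V} {y : V} {n : ℕ}
    (h1 : orbitBall π S y n ⊆ T) (h2 : ∀ z ∈ T, z ∉ A → orbitBall π S z 1 ⊆ T) (j : ℕ) :
    reach π S A y n j ⊆ T := by
  induction j with
  | zero => exact fun z hz => h1 hz.1
  | succ j ih =>
    rw [reach_succ]
    rintro z ⟨-, u, hu, hz⟩
    exact h2 u (ih hu) (reach_notMem hu) hz

theorem separates_of_finite {π : E →* Equiv.Perm V} {S : Set E} {A T : Set V} {y : V} {n : ℕ}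
    (hT : T.Finite) (h1 : orbitBall π S y n ⊆ T)
    (h2 : ∀ z ∈ T, z ∉ A → orbitBall π S z 1 ⊆ T) :
    Separates π S y n (n + T.ncard) A := by
  have hfin : ∀ j, (reach π S A y n j).Finite := fun j => hT.subset (reach_sub h1 h2 j)
  have key : ∀ t : ℕ, (∃ j < t, reach π S A y n (j + 1) = reach π S A y n j) ∨
      t ≤ (reach π S A y n t).ncard := by
    intro t
    induction t with
    | zero => exact Or.inr (Nat.zero_le _)
    | succ t ih =>
      rcases ih with ⟨j, hj, h3⟩ | h3
      · exact Or.inl ⟨j, by omega, h3⟩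
      · by_cases h4 : reach π S A y n (t + 1) = reach π S A y n t
        · exact Or.inl ⟨t, by omega, h4⟩
        · right
          have h5 : reach π S A y n t ⊂ reach π S A y n (t + 1) :=
            (reach_sub_succ π S A y n t).ssubset_of_ne (fun h => h4 h.symm)
          have h6 := Set.ncard_lt_ncard h5 (hfin _)
          omega
  have h3 : ∃ j ≤ T.ncard, reach π S A y n (j + 1) = reach π S A y n j := by
    rcases key (T.ncard + 1) with ⟨j, hj, h4⟩ | h4
    · exact ⟨j, by omega, h4⟩
    · have h5 := Set.ncard_le_ncard (reach_sub h1 h2 (T.ncard + 1)) hT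
      omega
  obtain ⟨j, hj, h4⟩ := h3
  have hsub0 : ∀ i, reach π S A y n 0 ⊆ reach π S A y n i := by
    intro i
    induction i with
    | zero => exact Subset.rfl
    | succ i ih => exact ih.trans (reach_sub_succ π S A y n i)
  refine ⟨reach π S A y n j, (reach_ball π S A y n j).trans (orbitBall_mono (by omega)), ?_, ?_⟩
  · intro z hz
    by_cases hA : z ∈ A
    · exact Or.inr hA
    · exact Or.inl (hsub0 j ⟨hz, hA⟩)
  · intro u hu z hz
    by_cases hA : z ∈ A
    · exact Or.inr hA
    · left
      rw [← h4, reach_succ]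
      exact ⟨hA, u, hu, hz⟩

end comp

/-! ### Trees -/

/-- Automorphisms of the rooted tree `X^*` of finite words. -/
def IsTreeAutomorphism {X : Type} (g : Equiv.Perm (List X)) : Prop :=
  (∀ w : List X, (g w).length = w.length) ∧ ∀ v w : List X, g v <+: g (v ++ w)

/-- The section of `g` at the word `v`. -/
def sectionAt {X : Type} (g : Equiv.Perm (List X)) (v w : List X) : List X :=
  (g (v ++ w)).drop v.length

/-- The sections at words of length `k` of elements of length at most `n`. -/
def sections {X : Type} (π : E →* Equiv.Perm (List X)) (S : Set E) (n k : ℕ) :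
    Set (List X → List X) :=
  {s | ∃ g ∈ ball S n, ∃ v : List X, v.length = k ∧ s = sectionAt (π g) v}

/-- The words of length `k` at which a generator or its inverse has a nontrivial section. -/
def activeWords {X : Type} (π : E →* Equiv.Perm (List X)) (S : Set E) (k : ℕ) : Set (List X) :=
  {v | v.length = k ∧ ∃ g ∈ ball S 1, sectionAt (π g) v ≠ id}

/-- Few sections or few active words at some levels. -/
def FewSections {X : Type} (π : E →* Equiv.Perm (List X)) (S : Set E) : Prop :=
  ∀ c : ℕ, ∃ n k : ℕ, c * (sections π S n k).ncard * Nat.card X ^ k ≤ n ^ 2 ∨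
    c * (sections π S n k).ncard * (activeWords π S k).ncard ≤ n

section tree

variable {X : Type}

theorem append_eq {g : Equiv.Perm (List X)} (hg : IsTreeAutomorphism g) (v w : List X) :
    g (v ++ w) = g v ++ sectionAt g v w := by
  obtain ⟨t, ht⟩ := hg.2 v w
  unfold sectionAt
  rw [← ht, ← hg.1 v, List.drop_left]

theorem words_finite [Finite X] (k : ℕ) : {v : List X | v.length = k}.Finite :=
  List.finite_length_eq X k

theorem words_ncard [Finite X] (k : ℕ) : {v : List X | v.length = k}.ncard = Nat.card X ^ k := by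
  have := Fintype.ofFinite X
  have h1 : {v : List X | v.length = k}.ncard = Nat.card (List.Vector X k) := rfl
  rw [h1, Nat.card_eq_fintype_card, card_vector, Nat.card_eq_fintype_card]

theorem sections_finite [Finite X] {π : E →* Equiv.Perm (List X)} {S : Set E} (hS : S.Finite)
    (n k : ℕ) : (sections π S n k).Finite := by
  have h1 : sections π S n k ⊆ (fun p : E × List X => sectionAt (π p.1) p.2) ''
      (ball S n ×ˢ {v : List X | v.length = k}) := by
    rintro s ⟨g, hg, v, hv, rfl⟩
    exact ⟨(g, v), ⟨hg, hv⟩, rfl⟩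
  exact ((((ball_finite hS n).prod (words_finite k))).image _).subset h1

theorem activeWords_finite [Finite X] {π : E →* Equiv.Perm (List X)} {S : Set E} (k : ℕ) :
    (activeWords π S k).Finite := (words_finite k).subset fun _ h => h.1

theorem one_le_sections [Finite X] [Nonempty X] {π : E →* Equiv.Perm (List X)} {S : Set E}
    (hS : S.Finite) (n k : ℕ) : 1 ≤ (sections π S n k).ncard := by
  rw [Nat.one_le_iff_ne_zero, Ne, Set.ncard_eq_zero (sections_finite hS n k),
    ← Set.not_nonempty_iff_eq_empty, not_not]
  exact ⟨_, 1, one_mem_ball S n, List.replicate k (Classical.arbitrary X), List.length_replicate,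
    rfl⟩

/-- The tile around a word. -/
def tile (π : E →* Equiv.Perm (List X)) (S : Set E) (n k : ℕ) (B : Set (List X)) (w : List X) :
    Set (List X) :=
  (fun p : (List X → List X) × List X => p.2 ++ p.1 w) '' (sections π S n k ×ˢ B)

theorem tile_finite [Finite X] {π : E →* Equiv.Perm (List X)} {S : Set E} (hS : S.Finite)
    (n k : ℕ) {B : Set (List X)} (hB : B.Finite) (w : List X) : (tile π S n k B w).Finite :=
  ((sections_finite hS n k).prod hB).image _

theorem tile_ncard [Finite X] {π : E →* Equiv.Perm (List X)} {S : Set E} (hS : S.Finite)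
    (n k : ℕ) {B : Set (List X)} (hB : B.Finite) (w : List X) :
    (tile π S n k B w).ncard ≤ (sections π S n k).ncard * B.ncard :=
  (Set.ncard_image_le ((sections_finite hS n k).prod hB)).trans (le_of_eq Set.ncard_prod)

theorem orbitBall_sub_tile {π : E →* Equiv.Perm (List X)} (hπ : ∀ e, IsTreeAutomorphism (π e))
    {S : Set E} {n k : ℕ} {u w : List X} (hu : u.length = k) :
    orbitBall π S (u ++ w) n ⊆ tile π S n k {v | v.length = k} w := by
  rintro z ⟨g, hg, rfl⟩
  refine ⟨(sectionAt (π g) u, π g u), ⟨⟨g, hg, u, hu, rfl⟩, ?_⟩, (append_eq (hπ g) u w).symm⟩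
  show (π g u).length = k
  rw [(hπ g).1 u, hu]

theorem orbitBall_sub_words {π : E →* Equiv.Perm (List X)} (hπ : ∀ e, IsTreeAutomorphism (π e))
    {S : Set E} {n : ℕ} {w : List X} {k : ℕ} (hw : w.length = k) :
    orbitBall π S w n ⊆ {v | v.length = k} := by
  rintro z ⟨g, hg, rfl⟩
  show (π g w).length = k
  rw [(hπ g).1 w, hw]

theorem orbitBall_ncard [Finite X] [Nonempty X] {π : E →* Equiv.Perm (List X)}
    (hπ : ∀ e, IsTreeAutomorphism (π e)) {S : Set E} (hS : S.Finite) (n k : ℕ) (y : List X) :
    (orbitBall π S y n).ncard ≤ (sections π S n k).ncard * Nat.card X ^ k := by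
  rcases Nat.lt_or_ge y.length k with h | h
  · have h1 := Set.ncard_le_ncard (orbitBall_sub_words hπ (S := S) (n := n) (w := y) rfl)
      (words_finite y.length)
    rw [words_ncard] at h1
    refine h1.trans ?_
    have h2 : Nat.card X ^ y.length ≤ Nat.card X ^ k :=
      Nat.pow_le_pow_right Nat.card_pos h.le
    calc Nat.card X ^ y.length ≤ 1 * Nat.card X ^ k := by rw [one_mul]; exact h2
      _ ≤ _ := Nat.mul_le_mul_right _ (one_le_sections hS n k)
  · have h1 : y = y.take k ++ y.drop k := (List.take_append_drop k y).symm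
    have h2 : (y.take k).length = k := by rw [List.length_take]; omega
    rw [h1]
    refine (Set.ncard_le_ncard (orbitBall_sub_tile hπ h2)
      (tile_finite hS n k (words_finite k) _)).trans ?_
    refine (tile_ncard hS n k (words_finite k) _).trans ?_
    rw [words_ncard]

theorem exists_cut [Finite X] [Nonempty X] {π : E →* Equiv.Perm (List X)}
    (hπ : ∀ e, IsTreeAutomorphism (π e)) {S : Set E} (hS : S.Finite) (n k : ℕ) (y : List X) :
    ∃ A : Set (List X), A.Finite ∧
      Separates π S y n (n + (sections π S n k).ncard * Nat.card X ^ k) A ∧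
      A.ncard ≤ (sections π S n k).ncard * (activeWords π S k).ncard := by
  rcases Nat.lt_or_ge y.length k with h | h
  · refine ⟨∅, Set.finite_empty, ?_, by simp⟩
    have h1 := separates_of_finite (π := π) (S := S) (A := ∅) (y := y) (n := n)
      (words_finite y.length) (orbitBall_sub_words hπ rfl)
      (fun z hz _ => orbitBall_sub_words hπ hz)
    refine h1.mono ?_
    rw [words_ncard]
    have h2 : Nat.card X ^ y.length ≤ Nat.card X ^ k :=
      Nat.pow_le_pow_right Nat.card_pos h.le
    have h3 : 1 * Nat.card X ^ k ≤ (sections π S n k).ncard * Nat.card X ^ k :=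
      Nat.mul_le_mul_right _ (one_le_sections hS n k)
    omega
  · have h1 : y = y.take k ++ y.drop k := (List.take_append_drop k y).symm
    have h2 : (y.take k).length = k := by rw [List.length_take]; omega
    set w := y.drop k with hw
    have hT := tile_finite (π := π) hS n k (words_finite (X := X) k) w
    have hTc := tile_ncard (π := π) hS n k (words_finite (X := X) k) w
    rw [words_ncard] at hTc
    refine ⟨tile π S n k (activeWords π S k) w, tile_finite hS n k (activeWords_finite k) w, ?_,
      tile_ncard hS n k (activeWords_finite k) w⟩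
    have h3 : Separates π S y n (n + (tile π S n k {v | v.length = k} w).ncard)
        (tile π S n k (activeWords π S k) w) := by
      refine separates_of_finite hT ?_ ?_
      · rw [h1]
        exact orbitBall_sub_tile hπ h2
      · rintro _ ⟨⟨s, v⟩, ⟨hs, hv⟩, rfl⟩ hA
        have hv' : v.length = k := hv
        rintro z ⟨g, hg, rfl⟩
        have h4 : sectionAt (π g) v = id := by
          by_contra h5
          exact hA ⟨(s, v), ⟨hs, hv', g, hg, h5⟩, rfl⟩
        refine ⟨(s, π g v), ⟨hs, ?_⟩, ?_⟩
        · show (π g v).length = k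
          rw [(hπ g).1 v, hv']
        · show π g v ++ s w = π g (v ++ s w)
          rw [append_eq (hπ g), h4]
          rfl
    exact h3.mono (by omega)

/-- Few sections: no thick points at some scale. -/
theorem no_thick [Finite X] [Nonempty X] {π : E →* Equiv.Perm (List X)}
    (hπ : ∀ e, IsTreeAutomorphism (π e)) {S : Set E} (hS : S.Finite) (h : FewSections π S)
    {C : ℕ} (hC : 0 < C) : ∃ m R : ℕ, ∀ y, ¬ Thick π S C m R y := by
  obtain ⟨n, k, h1 | h1⟩ := h (9 * C)
  · refine ⟨n / 2, n, fun y hy => ?_⟩
    have h2 := hy.2 (by omega)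
    have h3 := orbitBall_ncard hπ hS n k y
    have h4 : (orbitBall π S y (2 * (n / 2))).ncard ≤ (orbitBall π S y n).ncard :=
      Set.ncard_le_ncard (orbitBall_mono (by omega)) (orbitBall_finite hS y n)
    have h5 : 1 ≤ Nat.card X ^ k := Nat.one_le_pow _ _ Nat.card_pos
    have h6 := one_le_sections (π := π) (X := X) hS n k
    set a := (sections π S n k).ncard with ha
    set b := Nat.card X ^ k with hb
    have h7 : 1 ≤ a * b := Nat.mul_pos h6 h5
    have h8 : 9 * C * a * b = 9 * (C * (a * b)) := by ring
    rw [h8] at h1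
    have h9 : 1 ≤ C * (a * b) := Nat.mul_pos hC h7
    have h10 : 3 ≤ n := by
      by_contra h11
      have : n ≤ 2 := by omega
      have : n ^ 2 ≤ 2 ^ 2 := Nat.pow_le_pow_left this 2
      omega
    have h11 : n ≤ 3 * (n / 2) := by omega
    have h12 : n ^ 2 ≤ (3 * (n / 2)) ^ 2 := Nat.pow_le_pow_left h11 2
    have h13 : (3 * (n / 2)) ^ 2 = 9 * (n / 2) ^ 2 := by ring
    have h14 : C * (orbitBall π S y (2 * (n / 2))).ncard ≤ C * (a * b) :=
      Nat.mul_le_mul_left _ (h4.trans h3)
    omega
  · refine ⟨n, n + (sections π S n k).ncard * Nat.card X ^ k, fun y hy => ?_⟩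
    obtain ⟨A, hA, h2, h3⟩ := exists_cut hπ hS n k y
    have h4 := hy.1 A hA h2
    have h5 : C * A.ncard ≤ C * ((sections π S n k).ncard * (activeWords π S k).ncard) :=
      Nat.mul_le_mul_left _ h3
    have h6 : 9 * C * (sections π S n k).ncard * (activeWords π S k).ncard =
      9 * (C * ((sections π S n k).ncard * (activeWords π S k).ncard)) := by ring
    rw [h6] at h1
    omega

end tree

end Pool.Agent.Lib.H31Q
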