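import Pool.Agent.Lib.H31Q.Comp

/-!
# H31Q: limit spaces of dimension one
-/

set_option autoImplicit false

namespace Pool.Agent.Lib.H31Q

open Set Filter Topology Relation

/-- Covering dimension at most `d`. -/
def CoveringDimLE (Y : Type) [TopologicalSpace Y] (d : ℕ) : Prop :=
  ∀ 𝒰 : Set (Set Y), 𝒰.Finite → (∀ U ∈ 𝒰, IsOpen U) → ⋃₀ 𝒰 = Set.univ →
    ∃ 𝒱 : Set (Set Y), (∀ V ∈ 𝒱, IsOpen V ∧ ∃ U ∈ 𝒰, V ⊆ U) ∧ ⋃₀ 𝒱 = Set.univ ∧
      ∀ y, {V | V ∈ 𝒱 ∧ y ∈ V}.encard ≤ d + 1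

variable {X : Type}

/-- The relation given by a nucleus. -/
def NRel (P : Set (Equiv.Perm (List X))) (ξ η : ℕ → X) : Prop :=
  ∀ n, ∃ p ∈ P, p (leftWord ξ n) = leftWord η n

theorem NRel.equivalence {P : Set (Equiv.Perm (List X))} (hP : Nuc P) :
    Equivalence (NRel P) := by
  refine ⟨fun ξ n => ⟨1, hP.one, rfl⟩, fun {ξ η} h n => ?_, fun {ξ η ζ} h1 h2 n => ?_⟩
  · obtain ⟨p, hp, h1⟩ := h n
    refine ⟨p⁻¹, hP.inv p hp, ?_⟩
    rw [← h1]
    exact Equiv.symm_apply_apply p _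
  · obtain ⟨K, hK⟩ := exists_uniform hP
    obtain ⟨p, hp, h3⟩ := h1 (n + K)
    obtain ⟨q, hq, h4⟩ := h2 (n + K)
    obtain ⟨r, hr, h5⟩ := hK q hq p hp (leftWord (fun i => ξ (n + i)) K)
      (leftWord_length _ _).ge
    refine ⟨r, hr, ?_⟩
    have ht := tree_mul (hP.tree q hq) (hP.tree p hp)
    have h6 : (q * p) (leftWord ξ (n + K)) = leftWord ζ (n + K) := by
      rw [Equiv.Perm.mul_apply, h3, h4]
    rw [leftWord_add, leftWord_add, append_eq ht, h5] at h6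
    exact List.append_inj_right h6 (by rw [ht.1, leftWord_length, leftWord_length])

theorem exists_cylinder [TopologicalSpace X] {O : Set (ℕ → X)} (hO : IsOpen O)
    {η : ℕ → X} (hη : η ∈ O) : ∃ j, ∀ ζ : ℕ → X, leftWord ζ j = leftWord η j → ζ ∈ O := by
  rw [isOpen_pi_iff] at hO
  obtain ⟨I, u, h1, h2⟩ := hO η hη
  refine ⟨I.sup id + 1, fun ζ hζ => h2 fun i hi => ?_⟩
  have h3 : i ≤ I.sup id := Finset.le_sup (f := id) hi
  rw [eq_of_leftWord hζ i (by omega)]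
  exact (h1 i hi).2

theorem isLocallyConstant_leftWord [TopologicalSpace X] [DiscreteTopology X] (n : ℕ) :
    IsLocallyConstant fun ξ : ℕ → X => leftWord ξ n := by
  induction n with
  | zero => exact IsLocallyConstant.const []
  | succ n ih =>
    have h1 : IsLocallyConstant fun ξ : ℕ → X => ξ n :=
      IsLocallyConstant.iff_continuous _ |>.2 (continuous_apply n)
    exact (h1.prodMk ih).comp fun q : X × List X => q.1 :: q.2

theorem isClosed_rel [TopologicalSpace X] [DiscreteTopology X] (n : ℕ)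
    (R : List X → List X → Prop) :
    IsClosed {q : (ℕ → X) × (ℕ → X) | R (leftWord q.1 n) (leftWord q.2 n)} := by
  have h1 : IsLocallyConstant fun q : (ℕ → X) × (ℕ → X) => (leftWord q.1 n, leftWord q.2 n) :=
    ((isLocallyConstant_leftWord n).comp_continuous continuous_fst).prodMk
      ((isLocallyConstant_leftWord n).comp_continuous continuous_snd)
  have h2 := h1 {q : List X × List X | R q.1 q.2}ᶜ
  rw [Set.preimage_compl, isOpen_compl_iff] at h2
  exact h2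

theorem isClosed_nrel [TopologicalSpace X] [DiscreteTopology X]
    (P : Set (Equiv.Perm (List X))) :
    IsClosed {q : (ℕ → X) × (ℕ → X) | NRel P q.1 q.2} := by
  have h1 : {q : (ℕ → X) × (ℕ → X) | NRel P q.1 q.2} =
      ⋂ n, {q : (ℕ → X) × (ℕ → X) | (fun a b => ∃ p ∈ P, p a = b) (leftWord q.1 n)
        (leftWord q.2 n)} := by
    ext q
    simp [NRel]
  rw [h1]
  exact isClosed_iInter fun n => isClosed_rel n fun a b => ∃ p ∈ P, p a = b

/-- The words of length `n` whose tile lies in `V`. -/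
def tilesIn (r : (ℕ → X) → (ℕ → X) → Prop) (V : Set (Quot r)) (n : ℕ) : Set (List X) :=
  {v | v.length = n ∧ ∀ ξ : ℕ → X, leftWord ξ n = v → Quot.mk r ξ ∈ V}

theorem exists_cov [Finite X] [Nonempty X] [TopologicalSpace X] [DiscreteTopology X]
    {P : Set (Equiv.Perm (List X))} (hP : Nuc P) {r : (ℕ → X) → (ℕ → X) → Prop}
    (hr : ∀ ξ η, r ξ η ↔ NRel P ξ η) (hdim : CoveringDimLE (Quot r) 1) :
    ∃ (ι : Type) (A : ι → Set (List X)) (n m : ℕ), Cov P A n m := by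
  have hr' : r = NRel P := by
    funext ξ η
    exact propext (hr ξ η)
  subst hr'
  have hq : ∀ ξ η, Quot.mk (NRel P) ξ = Quot.mk (NRel P) η ↔ NRel P ξ η := by
    intro ξ η
    rw [Quot.eq, (NRel.equivalence hP).eqvGen_iff]
  obtain ⟨m, hm⟩ := exists_good hP
  -- the open stars
  let O : List X → Set (Quot (NRel P)) := fun u =>
    {j | ∀ η, Quot.mk (NRel P) η = j → ∃ p ∈ P, leftWord η m = p u}
  have hO : ∀ u, IsOpen (O u) := by
    intro u
    have h1 : IsOpen (Quot.mk (NRel P) ⁻¹' O u) := by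
      have h2 : (Quot.mk (NRel P) ⁻¹' O u)ᶜ = Prod.fst ''
          ({q : (ℕ → X) × (ℕ → X) | NRel P q.1 q.2} ∩
            {q : (ℕ → X) × (ℕ → X) | (fun _ b => ¬ ∃ p ∈ P, b = p u) (leftWord q.1 m)
              (leftWord q.2 m)}) := by
        ext ξ
        constructor
        · intro h
          have h' : ¬ ∀ η, Quot.mk (NRel P) η = Quot.mk (NRel P) ξ →
              ∃ p ∈ P, leftWord η m = p u := h
          push Not at h'
          obtain ⟨η, h3, h4⟩ := h'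
          refine ⟨(ξ, η), ⟨(NRel.equivalence hP).symm ((hq _ _).1 h3), ?_⟩, rfl⟩
          show ¬ ∃ p ∈ P, leftWord η m = p u
          push Not
          exact h4
        · rintro ⟨⟨ξ', η⟩, ⟨h3, h4⟩, rfl⟩ h5
          have h5' : ∀ η', Quot.mk (NRel P) η' = Quot.mk (NRel P) ξ' →
              ∃ p ∈ P, leftWord η' m = p u := h5
          exact h4 (h5' η ((hq _ _).2 ((NRel.equivalence hP).symm h3)))
      rw [← isClosed_compl_iff, h2]
      have h3 : IsClosed ({q : (ℕ → X) × (ℕ → X) | NRel P q.1 q.2} ∩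
            {q : (ℕ → X) × (ℕ → X) | (fun _ b => ¬ ∃ p ∈ P, b = p u) (leftWord q.1 m)
              (leftWord q.2 m)}) := (isClosed_nrel P).inter
          (isClosed_rel m fun _ b => ¬ ∃ p ∈ P, b = p u)
      exact (h3.isCompact.image continuous_fst).isClosed
    exact h1
  obtain ⟨𝒱, h𝒱1, h𝒱2, h𝒱3⟩ := hdim (O '' {u : List X | u.length = m})
    ((words_finite m).image O) (by rintro _ ⟨u, -, rfl⟩; exact hO u) (by
      rw [Set.eq_univ_iff_forall]
      rintro ⟨ξ⟩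
      refine ⟨O (leftWord ξ m), ⟨_, leftWord_length ξ m, rfl⟩, ?_⟩
      intro η hη
      obtain ⟨p, hp, h1⟩ := (NRel.equivalence hP).symm ((hq _ _).1 hη) m
      exact ⟨p, hp, h1.symm⟩)
  -- the Lebesgue number
  have hleb : ∃ n, ∀ v : List X, v.length = m + n →
      ∃ V ∈ 𝒱, ∀ p ∈ P, p v ∈ tilesIn (NRel P) V (m + n) := by
    by_contra hcon
    push Not at hcon
    choose v hv hbad using hcon
    choose ξ hξ using fun n : ℕ => exists_leftWord (v n)
    obtain ⟨ξ₀, hξ₀⟩ := exists_limit (Filter.hyperfilter ℕ) ξ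
    obtain ⟨V, hV, hV2⟩ : Quot.mk (NRel P) ξ₀ ∈ ⋃₀ 𝒱 := by rw [h𝒱2]; trivial
    have h1 : ∀ n, ∃ p ∈ P, ∃ η : ℕ → X, leftWord η (m + n) = p (v n) ∧
        Quot.mk (NRel P) η ∉ V := by
      intro n
      obtain ⟨p, hp, h2⟩ := hbad n V hV
      refine ⟨p, hp, ?_⟩
      have h3 : (p (v n)).length = m + n := by rw [(hP.tree p hp).1, hv]
      by_contra h4
      push Not at h4
      exact h2 ⟨h3, h4⟩
    choose p hp η hη hηV using h1
    obtain ⟨η₀, hη₀⟩ := exists_limit (Filter.hyperfilter ℕ) η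
    have h2 : NRel P ξ₀ η₀ := by
      intro j
      have h3 : ∀ᶠ n in (Filter.hyperfilter ℕ : Filter ℕ), j ≤ n :=
        Nat.hyperfilter_le_atTop (Filter.eventually_ge_atTop j)
      obtain ⟨n, h4, h5, h6⟩ := ((hξ₀ j).and ((hη₀ j).and h3)).exists
      obtain ⟨i, hi⟩ : ∃ i, m + n = j + i := ⟨m + n - j, by omega⟩
      have h7 : v n = leftWord (fun t => ξ n (j + t)) i ++ leftWord (ξ n) j := by
        rw [← leftWord_add, ← hi, ← hv n, hξ n]
      have h8 := hη n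
      rw [h7, append_eq (hP.tree _ (hp n)), hi, leftWord_add] at h8
      obtain ⟨s, hs, h9⟩ := hP.sec (p n) (hp n) (leftWord (fun t => ξ n (j + t)) i)
      rw [h9, h4, h5] at h8
      refine ⟨s, hs, ?_⟩
      exact (List.append_inj_right h8
        (by rw [(hP.tree _ (hp n)).1, leftWord_length, leftWord_length])).symm
    have h3 : Quot.mk (NRel P) η₀ ∈ V := by
      rw [← (hq ξ₀ η₀).2 h2]
      exact hV2
    have h4 : IsOpen (Quot.mk (NRel P) ⁻¹' V) := (h𝒱1 V hV).1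
    obtain ⟨j, hj⟩ := exists_cylinder h4 h3
    obtain ⟨n, hn⟩ := (hη₀ j).exists
    exact hηV n (hj (η n) hn)
  obtain ⟨n, hn⟩ := hleb
  refine ⟨𝒱, fun V => tilesIn (NRel P) V.1 (m + n), m + n, m, ⟨by omega, ?_, ?_, ?_⟩⟩
  · intro v hv
    obtain ⟨V, hV, h1⟩ := hn v hv
    exact ⟨⟨V, hV⟩, h1⟩
  · intro v hv
    obtain ⟨ξ, hξ⟩ := exists_leftWord v
    rw [hv] at hξ
    have h1 : (Subtype.val '' {i : 𝒱 | v ∈ tilesIn (NRel P) i.1 (m + n)}) ⊆
        {V | V ∈ 𝒱 ∧ Quot.mk (NRel P) ξ ∈ V} := by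
      rintro _ ⟨i, hi, rfl⟩
      exact ⟨i.2, hi.2 ξ hξ⟩
    rw [← Subtype.val_injective.encard_image]
    refine (Set.encard_le_encard h1).trans ((h𝒱3 _).trans ?_)
    norm_num
  · rintro ⟨V, hV⟩
    obtain ⟨-, _, ⟨u, hu, rfl⟩, hVO⟩ := h𝒱1 V hV
    have hu' : u.length = m := hu
    refine ⟨u, hu', hm u hu'.ge, fun v hv => ⟨hv.1, ?_⟩⟩
    obtain ⟨ξ, hξ⟩ := exists_leftWord v
    rw [hv.1] at hξ
    obtain ⟨p, hp, h1⟩ := hVO (hv.2 ξ hξ) ξ rfl
    refine ⟨p, hp, [], ?_⟩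
    rw [List.append_nil, ← h1, ← hξ, show m + n - m = n by omega, leftWord_add]
    exact List.drop_left' (leftWord_length _ _)

end Pool.Agent.Lib.H31Q
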